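import Pool.Agent.J6H57.WS.Node

/-!
The corner rule for ranks: a box in the corner of a slanted triangle.
-/

set_option autoImplicit false

namespace Pool.Agent.J6H57.WS

open Finset Pool.Agent.TH176.Nag Pool.Agent.TH880.NB

/-- the lattice points on the far side of the cut, column by column -/
theorem corner_flat {w : Type} {v : w → ℕ} {N : ℕ} {α β A μ ν g ν1 α' β' : ℝ} (hμ : 0 < μ)
    (hν : 0 < ν) (hg : 0 < g) (hg1 : g < 1) (hν1 : g * ν1 = μ * (1 - g))
    (hA : A * (μ + ν) ≤ μ * (β - α)) (hα' : α + g * A + μ * (1 - g) + 1 ≤ α')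
    (hβ' : β' + 2 * ν ≤ β)
    (htop : ∀ k : ℝ, 0 ≤ k → (μ * (1 - g) + ν) * k ≤ β' - α' → μ * g * k + μ ≤ α' - α)
    (h : Rk v (Reg α' β' (μ * (1 - g)) ν) N) :
    Rk v {m : ℤ × ℤ | m ∈ Reg α β μ ν ∧ α + A < m.1 + ν1 * m.2} N := by
  have hν10 : 0 < ν1 := by
    by_contra hcon
    push Not at hcon
    have h1 : g * ν1 ≤ 0 := mul_nonpos_of_nonneg_of_nonpos hg.le hcon
    have h2 : 0 < μ * (1 - g) := mul_pos hμ (by linarith)
    linarith
  refine Rk_flat0 ?_ h
  rintro ⟨a, k⟩ ⟨hk, hl, hr⟩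
  simp only at hk hl hr
  refine ⟨hk, ?_⟩
  have hk' : (0 : ℝ) ≤ k := by exact_mod_cast hk
  obtain ⟨c, hc⟩ : ∃ c : ℝ, c = a - α := ⟨_, rfl⟩
  have hc1 : g * A + μ * (1 - g) + 1 + μ * (1 - g) * k ≤ c := by rw [hc]; linarith
  have hc2 : μ * (1 + k) ≤ c := by
    have h1 := htop k hk' (by linarith)
    have e : μ * (1 + k) = (μ * g * k + μ) + μ * (1 - g) * k := by ring
    rw [e, hc]
    linarith
  have hc3 : ν * (2 + k) ≤ β - a := by nlinarith
  obtain ⟨t, ht⟩ : ∃ t : ℝ, t = min (c / μ) ((β - a) / ν) := ⟨_, rfl⟩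
  have ht1 : t ≤ c / μ := by rw [ht]; exact min_le_left _ _
  have ht2 : t ≤ (β - a) / ν := by rw [ht]; exact min_le_right _ _
  have ht1' : μ * t ≤ c := by
    rw [le_div_iff₀ hμ] at ht1; linarith
  have ht2' : ν * t ≤ β - a := by
    rw [le_div_iff₀ hν] at ht2; linarith
  have ht3 : 1 + (k : ℝ) ≤ t := by
    rw [ht, le_min_iff]
    constructor
    · rw [le_div_iff₀ hμ]; linarith
    · rw [le_div_iff₀ hν]; nlinarith
  obtain ⟨d, hd⟩ : ∃ d : ℤ, d = ⌊t⌋ - k := ⟨_, rfl⟩
  have hf1 : (⌊t⌋ : ℝ) ≤ t := Int.floor_le t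
  have hf2 : t < ⌊t⌋ + 1 := Int.lt_floor_add_one t
  have hdr : (d : ℝ) = ⌊t⌋ - k := by rw [hd]; push_cast; ring
  have hd0 : (0 : ℝ) < d := by rw [hdr]; linarith
  refine ⟨d, fun j hj => ?_⟩
  have hj' : (j : ℝ) ≤ k := by exact_mod_cast hj
  have hj0 : (0 : ℝ) ≤ j := Nat.cast_nonneg j
  have hdj : (d : ℝ) + j ≤ t := by rw [hdr]; linarith
  refine ⟨⟨?_, ?_, ?_⟩, ?_⟩
  · simp only
    have : (0 : ℝ) ≤ ((d + j : ℤ) : ℝ) := by push_cast; linarith
    exact_mod_cast this
  · simp only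
    push_cast
    have := mul_le_mul_of_nonneg_left hdj hμ.le
    linarith
  · simp only
    push_cast
    have := mul_le_mul_of_nonneg_left hdj hν.le
    linarith
  · simp only
    push_cast
    have hν1j : 0 ≤ ν1 * (j : ℝ) := mul_nonneg hν10.le hj0
    by_cases hcA : A ≤ c
    · have : 0 < ν1 * d := mul_pos hν10 hd0
      have e : ν1 * ((d : ℝ) + j) = ν1 * d + ν1 * j := by ring
      rw [e]
      linarith
    · push Not at hcA
      -- the minimum is the first term
      have h1 : c / μ ≤ (β - a) / ν := by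
        rw [div_le_div_iff₀ hμ hν]
        have h2 : c * (μ + ν) ≤ A * (μ + ν) := mul_le_mul_of_nonneg_right hcA.le (by positivity)
        have h3 : β - a = (β - α) - c := by rw [hc]; ring
        rw [h3]
        nlinarith
      have htc : t = c / μ := by rw [ht, min_eq_left h1]
      have htc' : μ * t = c := by rw [htc]; field_simp
      have h2 : t - 1 - k < d := by rw [hdr]; linarith
      -- `g (A - c) ≤ μ (1 - g) (t - 1 - k)`
      have h3 : g * (A - c) ≤ g * (ν1 * (t - 1 - k)) := by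
        have e : g * (ν1 * (t - 1 - k)) = (1 - g) * (μ * t) - μ * (1 - g) * (1 + k) := by
          linear_combination (t - 1 - k) * hν1
        rw [e, htc']
        nlinarith
      have h4 : A - c ≤ ν1 * (t - 1 - k) := le_of_mul_le_mul_left h3 hg
      have h5 : ν1 * (t - 1 - k) < ν1 * d := mul_lt_mul_of_pos_left h2 hν10
      have e : ν1 * ((d : ℝ) + j) = ν1 * d + ν1 * j := by ring
      rw [e]
      have e2 : (a : ℝ) = α + c := by rw [hc]; ring
      rw [e2]
      linarith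

/-- **the corner rule** -/
theorem Box.corner {ι κ : Type} [Fintype ι] [Fintype κ] {y : ι → ℝ} {z : κ → ℝ}
    {b h b1 h1 b2 : ℝ} (hh : 0 < h) (hb1 : 0 < b1) (hh1 : 0 < h1) (hbh : 3 * h ≤ 2 * b)
    (h21 : 2 * h1 < h) (hb1b : b1 < b) (ha : b1 * h1 + b2 * (h / 2) = b * h)
    (hB1 : Box y b1 h1) (hB2 : Box z b2 (h / 2)) : Box (Sum.elim y z) b h := by
  obtain ⟨H, hH⟩ : ∃ H : ℝ, H = h / 2 := ⟨_, rfl⟩
  have hH0 : 0 < H := by rw [hH]; positivity
  have hhH : h = 2 * H := by rw [hH]; ring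
  have hb : 0 < b := by linarith
  have hb2 : 0 < b2 := by
    by_contra hcon
    push Not at hcon
    have h3 : b2 * (h / 2) ≤ 0 := mul_nonpos_of_nonpos_of_nonneg hcon (by positivity)
    have h4 : b1 * h1 < b * h := by
      have : b1 * h1 ≤ b * h1 := mul_le_mul_of_nonneg_right hb1b.le hh1.le
      have : b * h1 < b * h := mul_lt_mul_of_pos_left (by linarith) hb
      linarith
    linarith
  obtain ⟨μ, hμ⟩ : ∃ μ : ℝ, μ = b1 / H := ⟨_, rfl⟩
  have hμH : μ * H = b1 := by rw [hμ]; field_simp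
  have hμ0 : 0 < μ := by rw [hμ]; positivity
  obtain ⟨g, hg⟩ : ∃ g : ℝ, g = h1 / H := ⟨_, rfl⟩
  have hgH : g * H = h1 := by rw [hg]; field_simp
  have hg0 : 0 < g := by rw [hg]; positivity
  have hg1 : g < 1 := by
    rw [hg, div_lt_one hH0, hH]; linarith
  obtain ⟨ρ1, hρ1⟩ : ∃ ρ1 : ℝ, ρ1 = b1 / h1 := ⟨_, rfl⟩
  have hρ1h : ρ1 * h1 = b1 := by rw [hρ1]; field_simp
  have hρ10 : 0 < ρ1 := by rw [hρ1]; positivity
  have hρg : g * ρ1 = μ := by
    have h3 : g * ρ1 * H = μ * H := by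
      rw [hμH, ← hρ1h, ← hgH]; ring
    exact mul_right_cancel₀ hH0.ne' h3
  obtain ⟨ν, hν⟩ : ∃ ν : ℝ, ν = 4 * (b / h) - μ := ⟨_, rfl⟩
  have hSH : (μ + ν) * H = 2 * b := by
    rw [hν, hhH]; field_simp; ring
  have hμb : μ < 2 * (b / h) := by
    rw [hμ, hhH]
    rw [show 2 * (b / (2 * H)) = b / H by field_simp]
    exact div_lt_div_of_pos_right hb1b hH0
  have hν0 : 0 < ν := by rw [hν]; linarith
  have hS0 : 0 < μ + ν := by linarith
  have hρ2 : μ * (1 - g) + ν = b2 / H := by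
    rw [eq_div_iff hH0.ne']
    have e : (μ * (1 - g) + ν) * H = (μ + ν) * H - (μ * H) * (g * H) / H := by
      field_simp; ring
    rw [e, hSH, hμH, hgH]
    have e3 : b1 * h1 / H = 2 * b - b2 := by
      rw [div_eq_iff hH0.ne']
      rw [hhH] at ha
      linear_combination ha
    rw [e3]; ring
  refine Box.node hh hbh hμ0 hμb ?_
  rw [← hν]
  have hA1 : AW y b1 μ (ρ1 - μ) := hB1.all hb1 hh1 (by rw [← hρ1]; ring)
  have hA2 : AW z b2 (μ * (1 - g)) ν := hB2.all hb2 (by positivity) (by rw [hρ2, hH])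
  intro η hη
  -- the parameters
  obtain ⟨η1, hη1⟩ : ∃ η1 : ℝ, η1 = η * min (min (μ / (μ + ν)) (ρ1 / (μ + ν))) (1 / 4) := ⟨_, rfl⟩
  have hmin : 0 < min (min (μ / (μ + ν)) (ρ1 / (μ + ν))) (1 / 4) := by
    refine lt_min (lt_min ?_ ?_) ?_ <;> positivity
  have hη10 : 0 < η1 := by rw [hη1]; positivity
  have hη1a : η1 * (μ + ν) ≤ μ * η := by
    have h3 : η1 ≤ η * (μ / (μ + ν)) := by
      rw [hη1]
      exact mul_le_mul_of_nonneg_left ((min_le_left _ _).trans (min_le_left _ _)) hη.le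
    calc η1 * (μ + ν) ≤ η * (μ / (μ + ν)) * (μ + ν) := mul_le_mul_of_nonneg_right h3 hS0.le
      _ = μ * η := by field_simp
  have hη1b : η1 * (μ + ν) ≤ ρ1 * η := by
    have h3 : η1 ≤ η * (ρ1 / (μ + ν)) := by
      rw [hη1]
      exact mul_le_mul_of_nonneg_left ((min_le_left _ _).trans (min_le_right _ _)) hη.le
    calc η1 * (μ + ν) ≤ η * (ρ1 / (μ + ν)) * (μ + ν) := mul_le_mul_of_nonneg_right h3 hS0.le
      _ = ρ1 * η := by field_simp
  have hη1c : η1 ≤ η / 4 := by
    have h3 : η1 ≤ η * (1 / 4) := by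
      rw [hη1]
      exact mul_le_mul_of_nonneg_left (min_le_right _ _) hη.le
    linarith
  obtain ⟨η2, hη2⟩ : ∃ η2 : ℝ, η2 = min (η / 4) (η1 * b2 / (2 * (μ * H))) := ⟨_, rfl⟩
  have hη20 : 0 < η2 := by
    rw [hη2]
    refine lt_min ?_ ?_ <;> positivity
  have hη2a : η2 ≤ η / 4 := by rw [hη2]; exact min_le_left _ _
  have hη2b : 2 * (μ * H) * η2 ≤ η1 * b2 := by
    have h3 : η2 ≤ η1 * b2 / (2 * (μ * H)) := by rw [hη2]; exact min_le_right _ _
    rw [le_div_iff₀ (by positivity)] at h3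
    linarith
  obtain ⟨s1, hs1⟩ := hA1 η1 hη10
  obtain ⟨s2, hs2⟩ := hA2 η2 hη20
  obtain ⟨s3, hs3⟩ := exists_large (η := g * η1 / 2) (c := μ) (by positivity)
  obtain ⟨s4, hs4⟩ := exists_large (η := η / 4) (c := μ * (1 - g) + 1 + 2 * ν) (by positivity)
  refine ⟨max (max s1 s2) (max s3 s4), fun s hs w hw α => ?_⟩
  have hs1' := hs1 s (((le_max_left _ _).trans (le_max_left _ _)).trans hs) (fun i => w (Sum.inl i))
    (fun i => hw (Sum.inl i)) α
  have hs2' := hs2 s (((le_max_right _ _).trans (le_max_left _ _)).trans hs)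
    (fun i => w (Sum.inr i)) (fun i => hw (Sum.inr i))
  have hs3' := hs3 s (((le_max_left _ _).trans (le_max_right _ _)).trans hs)
  have hs4' := hs4 s (((le_max_right _ _).trans (le_max_right _ _)).trans hs)
  have hs0 : (0 : ℝ) ≤ s := Nat.cast_nonneg s
  have e1 : w = Sum.elim (fun i => w (Sum.inl i)) fun i => w (Sum.inr i) := by
    funext i
    rcases i with i | i <;> rfl
  rw [e1, Fintype.sum_sum_type]
  simp only [Sum.elim_inl, Sum.elim_inr]
  obtain ⟨A, hA⟩ : ∃ A : ℝ, A = (b1 + η1) * s := ⟨_, rfl⟩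
  rw [← hA] at hs1'
  have hA0 : 0 ≤ A := by rw [hA]; positivity
  -- the far part
  obtain ⟨α', hα'⟩ : ∃ α' : ℝ, α' = α + g * A + μ * (1 - g) + 1 := ⟨_, rfl⟩
  have hbase : α' - α + b2 * s = 2 * b * s + g * η1 * s + μ * (1 - g) + 1 := by
    have h3 : g * b1 + b2 = 2 * b := by
      have h4 : (g * b1 + b2) * H = 2 * b * H := by
        have e5 : (g * b1 + b2) * H = b1 * (g * H) + b2 * H := by ring
        rw [e5, hgH]
        rw [hhH] at ha
        linear_combination ha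
      exact mul_right_cancel₀ hH0.ne' h4
    rw [hα', hA]
    linear_combination (s : ℝ) * h3
  have hfar := corner_flat (v := fun i => w (Sum.inr i)) (α := α) (β := α + (2 * b + η) * s)
    (A := A) (μ := μ) (ν := ν) (g := g) (ν1 := ρ1 - μ) (α' := α')
    (β' := α' + (b2 + η2) * s) hμ0 hν0 hg0 hg1 (by linear_combination hρg) ?_ (le_of_eq hα'.symm)
    ?_ ?_ (hs2' α')
  · refine Rk_cut 1 (ρ1 - μ) ?_ ?_ ?_ hs1' hfar
    · rintro m ⟨-, -, h3⟩ m' ⟨-, h5⟩
      linarith
    · -- the corner is inside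
      rintro m ⟨h3, h4, h5⟩
      refine ⟨h3, h4, ?_⟩
      have ht0 : (0 : ℝ) ≤ m.2 := by exact_mod_cast h3
      obtain ⟨t, ht⟩ : ∃ t : ℝ, t = m.2 := ⟨_, rfl⟩
      rw [← ht] at h4 h5 ht0 ⊢
      have h6 : ρ1 * t ≤ A := by linarith
      have h7 : A * (μ + ν) ≤ ρ1 * ((2 * b + η) * s) := by
        rw [hA]
        have h8 : b1 * (μ + ν) ≤ ρ1 * (2 * b) := by
          rw [← hρ1h, ← hSH]
          have : h1 ≤ H := by rw [hH]; linarith
          have h9 : 0 ≤ ρ1 * (μ + ν) := by positivity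
          nlinarith
        have h10 : (b1 + η1) * (μ + ν) ≤ ρ1 * (2 * b + η) := by
          have e : (b1 + η1) * (μ + ν) = b1 * (μ + ν) + η1 * (μ + ν) := by ring
          rw [e]; linarith
        calc (b1 + η1) * s * (μ + ν) = (b1 + η1) * (μ + ν) * s := by ring
          _ ≤ ρ1 * (2 * b + η) * s := mul_le_mul_of_nonneg_right h10 hs0
          _ = _ := by ring
      have h11 : A ≤ (2 * b + η) * s := by
        rw [hA]
        exact mul_le_mul_of_nonneg_right (by linarith) hs0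
      rcases le_total ρ1 (μ + ν) with h12 | h12
      · have h13 : (μ + ν - ρ1) * (ρ1 * t) ≤ (μ + ν - ρ1) * A :=
          mul_le_mul_of_nonneg_left h6 (by linarith)
        have h14 : ρ1 * ((μ + ν - ρ1) * t) ≤ ρ1 * ((2 * b + η) * s - A) := by
          have e : ρ1 * ((μ + ν - ρ1) * t) = (μ + ν - ρ1) * (ρ1 * t) := by ring
          have e' : ρ1 * ((2 * b + η) * s - A) = ρ1 * ((2 * b + η) * s) - ρ1 * A := by ring
          rw [e, e']
          have e'' : (μ + ν - ρ1) * A = A * (μ + ν) - ρ1 * A := by ring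
          rw [e''] at h13
          linarith
        have h15 := le_of_mul_le_mul_left h14 hρ10
        linarith
      · have h13 : (μ + ν - ρ1) * t ≤ 0 := mul_nonpos_of_nonpos_of_nonneg (by linarith) ht0
        linarith
    · intro m hm
      exact hm.1
  · -- `A (μ + ν) ≤ μ (2 b + η) s`
    rw [hA]
    have h3 : (b1 + η1) * (μ + ν) ≤ μ * (2 * b + η) := by
      have e : b1 * (μ + ν) = μ * (2 * b) := by rw [← hμH, ← hSH]; ring
      have e' : (b1 + η1) * (μ + ν) = b1 * (μ + ν) + η1 * (μ + ν) := by ring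
      rw [e', e]; linarith
    calc (b1 + η1) * s * (μ + ν) = (b1 + η1) * (μ + ν) * s := by ring
      _ ≤ μ * (2 * b + η) * s := mul_le_mul_of_nonneg_right h3 hs0
      _ = _ := by ring
  · -- the right end
    have h3 : g * η1 * s ≤ η / 4 * s := by
      have : g * η1 ≤ η / 4 := by nlinarith
      exact mul_le_mul_of_nonneg_right this hs0
    have h4 : η2 * s ≤ η / 4 * s := mul_le_mul_of_nonneg_right hη2a hs0
    have h5 : (2 * b + η) * (s : ℝ) = 2 * b * s + η / 4 * s + η / 4 * s + η / 4 * s + η / 4 * s := by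
      ring
    have h6 : 0 ≤ η / 4 * (s : ℝ) := by positivity
    have h7 : (b2 + η2) * (s : ℝ) = b2 * s + η2 * s := by ring
    rw [h5, h7]
    linarith
  · -- the top
    intro k hk0 hk
    have h3 : b2 * k ≤ (b2 + η2) * s * H := by
      have h4 : (μ * (1 - g) + ν) * k * H ≤ (b2 + η2) * s * H := by
        refine mul_le_mul_of_nonneg_right ?_ hH0.le
        linarith
      have h5 : (μ * (1 - g) + ν) * k * H = b2 * k := by
        rw [hρ2]; field_simp
      linarith
    -- `μ g k ≤ μ h1 s + g η1 s / 2`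
    have h4 : μ * g * k * b2 ≤ (μ * h1 * s + g * η1 / 2 * s) * b2 := by
      have h5 : μ * g * (b2 * k) ≤ μ * g * ((b2 + η2) * s * H) :=
        mul_le_mul_of_nonneg_left h3 (by positivity)
      have h6 : μ * g * ((b2 + η2) * s * H) = μ * (g * H) * s * b2 + g * s * ((μ * H) * η2) := by
        ring
      have h7 : g * s * ((μ * H) * η2) ≤ g * s * (η1 * b2 / 2) :=
        mul_le_mul_of_nonneg_left (by linarith) (by positivity)
      rw [h6, hgH] at h5
      calc μ * g * k * b2 = μ * g * (b2 * k) := by ring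
        _ ≤ μ * h1 * s * b2 + g * s * (η1 * b2 / 2) := by linarith
        _ = _ := by ring
    have h5 := le_of_mul_le_mul_right h4 hb2
    have h6 : α' - α = μ * h1 * s + g * η1 * s + μ * (1 - g) + 1 := by
      have h7 : g * b1 = μ * h1 := by rw [← hμH, ← hgH]; ring
      rw [hα', hA]
      linear_combination (s : ℝ) * h7
    rw [h6]
    have h8 : 0 ≤ μ * (1 - g) := mul_nonneg hμ0.le (by linarith)
    linarith

end Pool.Agent.J6H57.WS
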