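import Pool.Agent.J6H57.WS.Corner

/-!
Boxes composed of points with few different multiplicities.
-/

set_option autoImplicit false

namespace Pool.Agent.J6H57.WS

open Finset Pool.Agent.TH176.Nag Pool.Agent.TH880.NB

section split
variable {ι : Type} [Fintype ι] {y : ι → ℝ}

theorem elim_sumCompl (p : ι → Prop) [DecidablePred p] (j : ι) :
    Sum.elim (fun a : {a // p a} => y a) (fun a : {a // ¬ p a} => y a)
      ((Equiv.sumCompl p).symm j) = y j := by
  by_cases hj : p j
  · rw [Equiv.sumCompl_symm_apply_of_pos hj]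
    rfl
  · rw [Equiv.sumCompl_symm_apply_of_neg hj]
    rfl

theorem Box.split (p : ι → Prop) [DecidablePred p] {b c h : ℝ} (hb : 0 < b) (hc : 0 < c)
    (hh : 0 < h) (h1 : Box (fun a : {a // p a} => y a) b h)
    (h2 : Box (fun a : {a // ¬ p a} => y a) c h) : Box y (b + c) h := by
  have h3 := (h1.join hb hc hh h2).reindex (Equiv.sumCompl p).symm
  have e : (fun j => Sum.elim (fun a : {a // p a} => y a) (fun a : {a // ¬ p a} => y a)
      ((Equiv.sumCompl p).symm j)) = y := funext (elim_sumCompl p)
  rwa [e] at h3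

theorem Box.cornerP (p : ι → Prop) [DecidablePred p] {b h b1 h1 b2 : ℝ} (hh : 0 < h)
    (hb1 : 0 < b1) (hh1 : 0 < h1) (hbh : 3 * h ≤ 2 * b) (h21 : 2 * h1 < h) (hb1b : b1 < b)
    (ha : b1 * h1 + b2 * (h / 2) = b * h) (hB1 : Box (fun a : {a // p a} => y a) b1 h1)
    (hB2 : Box (fun a : {a // ¬ p a} => y a) b2 (h / 2)) : Box y b h := by
  have h3 := (Box.corner hh hb1 hh1 hbh h21 hb1b ha hB1 hB2).reindex (Equiv.sumCompl p).symm
  have e : (fun j => Sum.elim (fun a : {a // p a} => y a) (fun a : {a // ¬ p a} => y a)
      ((Equiv.sumCompl p).symm j)) = y := funext (elim_sumCompl p)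
  rwa [e] at h3

theorem Box.congr {b h b' h' : ℝ} (hB : Box y b h) (hb : b' = b) (hh : h' = h) : Box y b' h' := by
  rw [hb, hh]; exact hB

end split

section equal
variable {κ : Type} [Fintype κ] [Nonempty κ] {y : κ → ℝ} {l : ℝ}

/-- a row of equal points -/
theorem Box.rowE (hl : 0 < l) (hy : ∀ i, y i = l) : Box y (Fintype.card κ * l) l := by
  obtain ⟨n, hn⟩ : ∃ n, Fintype.card κ = n + 1 := ⟨Fintype.card κ - 1, by
    have := Fintype.card_pos (α := κ)
    omega⟩
  have h1 := (Box.row hl n).reindex (Fintype.equivFinOfCardEq hn)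
  have e : (fun _ : κ => l) = y := by funext i; rw [hy]
  have e2 : (Fintype.card κ : ℝ) = n + 1 := by rw [hn]; push_cast; ring
  rw [e2]
  rw [← e]
  exact h1

/-- equal points in a flat box -/
theorem Box.flatE (hl : 0 < l) (hy : ∀ i, y i = l) {b h : ℝ} (hh : 0 < h)
    (hbh : 3 * h ≤ 2 * b) (h2 : 2 * l ≤ h) (ha : b * h = Fintype.card κ * l ^ 2) : Box y b h :=
  Box.squeeze (b' := Fintype.card κ * l) (h' := l) (by linarith) hh hl hbh
    (by rw [ha]; ring) h2 (Box.rowE hl hy)

/-- equal points in any box -/
theorem Box.largeE (hl : 0 < l) (hy : ∀ i, y i = l) {b h : ℝ} (h4 : 4 * l ≤ h)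
    (h2 : 2 * l ≤ b) (ha : b * h = Fintype.card κ * l ^ 2) : Box y b h := by
  have hh : 0 < h := by linarith
  have hb : 0 < b := by linarith
  rcases le_or_gt (3 * h) (2 * b) with h5 | h5
  · exact Box.flatE hl hy hh h5 (by linarith) ha
  rcases le_or_gt (3 * b) (2 * h) with h6 | h6
  · exact (Box.flatE hl hy hb h6 h2 (by rw [mul_comm]; exact ha)).swap hh hb
  · refine Box.stretch hb hh (by linarith) ?_
    refine Box.flatE hl hy (by positivity) (by linarith) (by linarith) ?_
    rw [← ha]; ring

end equal

/-- **Few multiplicities.** A box with height `h ≥ 4 M` and area at least `3 r h ^ 2` is composed of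
points with at most `r` different multiplicities `≤ M`. -/
theorem Box.few {M h : ℝ} (hM : 0 < M) (h4 : 4 * M ≤ h) (r : ℕ) : ∀ (ι : Type) [Fintype ι]
    (y : ι → ℝ), (∀ i, 0 < y i) → (∀ i, y i ≤ M) → (univ.image y).card ≤ r + 1 →
    3 * (r + 1) * h ^ 2 ≤ ∑ i, y i ^ 2 → Box y ((∑ i, y i ^ 2) / h) h := by
  classical
  have hh : 0 < h := by linarith
  have hMh : 16 * M ^ 2 ≤ h ^ 2 := by nlinarith
  induction r with
  | zero =>
    intro ι _ y hy0 hyM hc hV
    have hne : Nonempty ι := by
      by_contra hne
      rw [not_nonempty_iff] at hne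
      have : ∑ i, y i ^ 2 = 0 := by simp
      rw [this] at hV
      have : 0 < 3 * (((0 : ℕ) : ℝ) + 1) * h ^ 2 := by positivity
      linarith
    obtain ⟨i0⟩ := hne
    have hne : Nonempty ι := ⟨i0⟩
    have hall : ∀ i, y i = y i0 := by
      intro i
      rw [zero_add] at hc
      exact Finset.card_le_one.1 hc _ (mem_image_of_mem y (mem_univ i)) _
        (mem_image_of_mem y (mem_univ i0))
    have hsum : ∑ i, y i ^ 2 = Fintype.card ι * (y i0) ^ 2 := by
      rw [Finset.sum_congr rfl fun i _ => by rw [hall i]]
      simp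
    have hb : 3 * h ≤ (∑ i, y i ^ 2) / h := by
      rw [le_div_iff₀ hh]
      push_cast at hV
      nlinarith
    have := hyM i0
    refine Box.flatE (hy0 i0) hall hh (by linarith) (by linarith) ?_
    rw [div_mul_cancel₀ _ hh.ne', hsum]
  | succ r ih =>
    intro ι _ y hy0 hyM hc hV
    push_cast at hV
    rcases Nat.lt_or_ge (r + 1) (univ.image y).card with hcard | hcard
    swap
    · refine ih ι y hy0 hyM hcard (le_trans ?_ hV)
      have : 0 ≤ h ^ 2 := sq_nonneg h
      nlinarith
    -- the areas of the groups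
    obtain ⟨a, ha⟩ : ∃ a : ℝ → ℝ, ∀ v, a v = (univ.filter fun i => y i = v).card * v ^ 2 :=
      ⟨_, fun _ => rfl⟩
    have hsum : ∑ v ∈ univ.image y, a v = ∑ i, y i ^ 2 := by
      rw [← Finset.sum_fiberwise_of_maps_to (s := univ) (t := univ.image y) (g := y)
        (fun i _ => mem_image_of_mem y (mem_univ i))]
      refine Finset.sum_congr rfl fun v _ => ?_
      rw [ha, ← nsmul_eq_mul, ← Finset.sum_const]
      exact Finset.sum_congr rfl fun i hi => by rw [(mem_filter.1 hi).2]
    have hcardeq : (univ.image y).card = r + 1 + 1 := by omega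
    have hsub : ∀ (v : ℝ) (p : ι → Prop) [DecidablePred p], v ∈ univ.image y →
        (∀ i, y i = v → p i) →
        (univ.image fun i : {i // ¬ p i} => y i).card ≤ r + 1 := by
      intro v p _ hv hp
      have h1 : (univ.image fun i : {i // ¬ p i} => y i) ⊆ (univ.image y).erase v := by
        intro t ht
        rw [mem_image] at ht
        obtain ⟨i, -, rfl⟩ := ht
        refine mem_erase.2 ⟨fun h => i.2 (hp i h), mem_image_of_mem y (mem_univ _)⟩
      refine (card_le_card h1).trans ?_
      rw [card_erase_of_mem hv, hcardeq]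
      omega
    -- removal of a large group
    have hlarge : ∀ v ∈ univ.image y, 2 * h ≤ (univ.filter fun i => y i = v).card * v →
        3 * ((r : ℝ) + 1) * h ^ 2 ≤ ∑ i, y i ^ 2 - a v → Box y ((∑ i, y i ^ 2) / h) h := by
      intro v hv hnv hrest
      obtain ⟨i0, -, hi0⟩ := mem_image.1 hv
      have hv0 : 0 < v := by rw [← hi0]; exact hy0 i0
      have hvM : v ≤ M := by rw [← hi0]; exact hyM i0
      have hadd := Fintype.sum_subtype_add_sum_subtype (fun i => y i = v) (fun i => y i ^ 2)
      have hcardv : Fintype.card {i // y i = v} = (univ.filter fun i => y i = v).card :=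
        Fintype.card_subtype _
      have hA : ∑ i : {i // y i = v}, y i ^ 2 = a v := by
        rw [ha, ← hcardv, Finset.sum_congr rfl fun i _ => by rw [i.2]]
        simp
      rw [hA] at hadd
      have h1 : Box (fun i : {i // y i = v} => y i) (a v / h) h := by
        have : Nonempty {i // y i = v} := ⟨⟨i0, hi0⟩⟩
        refine Box.largeE hv0 (fun i => i.2) (by linarith) ?_ ?_
        · rw [le_div_iff₀ hh, ha]
          nlinarith
        · rw [div_mul_cancel₀ _ hh.ne', ha, hcardv]
      have h2 : Box (fun i : {i // ¬ y i = v} => y i)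
          ((∑ i : {i // ¬ y i = v}, y i ^ 2) / h) h := by
        refine ih _ _ (fun i => hy0 i) (fun i => hyM i)
          (hsub v (fun i => y i = v) hv fun i hi => hi) ?_
        linarith
      have hav : 0 < a v := by
        have h3 : 0 < (univ.filter fun i => y i = v).card * v := by linarith
        rw [ha, sq, ← mul_assoc]
        positivity
      have h3 : 0 < ∑ i : {i // ¬ y i = v}, y i ^ 2 := by
        have : 0 < 3 * ((r : ℝ) + 1) * h ^ 2 := by positivity
        linarith
      have h4 := Box.split (fun i => y i = v) (by positivity) (by positivity) hh h1 h2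
      refine h4.congr ?_ rfl
      rw [← hadd, add_div]
    have hne : (univ.image y).Nonempty := by
      rw [← card_pos, hcardeq]; omega
    by_cases hsmall : ∃ v ∈ univ.image y, (univ.filter fun i => y i = v).card * v < 2 * h
    · -- a small group
      obtain ⟨v, hv, hnv⟩ := hsmall
      obtain ⟨i0, -, hi0⟩ := mem_image.1 hv
      have hv0 : 0 < v := by rw [← hi0]; exact hy0 i0
      have hvM : v ≤ M := by rw [← hi0]; exact hyM i0
      have hav : a v ≤ h ^ 2 / 2 := by
        rw [ha]
        have h1 : (univ.filter fun i => y i = v).card * v * v ≤ 2 * h * v :=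
          mul_le_mul_of_nonneg_right hnv.le hv0.le
        nlinarith
      obtain ⟨u, hu, hau⟩ : ∃ u ∈ univ.image y, 3 * h ^ 2 ≤ a u := by
        refine Finset.exists_le_of_sum_le hne ?_
        rw [hsum, Finset.sum_const, hcardeq, nsmul_eq_mul]
        push_cast
        linarith
      obtain ⟨j0, -, hj0⟩ := mem_image.1 hu
      have hu0 : 0 < u := by rw [← hj0]; exact hy0 j0
      have huM : u ≤ M := by rw [← hj0]; exact hyM j0
      have hhpos : 0 < h ^ 2 := by positivity
      have huv : u ≠ v := by
        rintro rfl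
        linarith
      obtain ⟨m, hm⟩ : ∃ m : ℕ, m = ⌈2 * h ^ 2 / u ^ 2⌉₊ := ⟨_, rfl⟩
      have hm1 : 2 * h ^ 2 ≤ m * u ^ 2 := by
        have := Nat.le_ceil (2 * h ^ 2 / u ^ 2)
        rw [← hm, div_le_iff₀ (by positivity)] at this
        exact this
      have hm2 : m * u ^ 2 ≤ 2 * h ^ 2 + u ^ 2 := by
        have := (Nat.ceil_lt_add_one (a := 2 * h ^ 2 / u ^ 2) (by positivity)).le
        rw [← hm] at this
        have h3 := mul_le_mul_of_nonneg_right this (sq_nonneg u)
        have e : (2 * h ^ 2 / u ^ 2 + 1) * u ^ 2 = 2 * h ^ 2 + u ^ 2 := by field_simp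
        linarith
      have huu : u ^ 2 ≤ M ^ 2 := pow_le_pow_left₀ hu0.le huM 2
      have hmcard : m ≤ (univ.filter fun i => y i = u).card := by
        have h1 : (m : ℝ) * u ^ 2 ≤ (univ.filter fun i => y i = u).card * u ^ 2 := by
          rw [ha] at hau
          linarith
        have h2 := le_of_mul_le_mul_right h1 (by positivity)
        exact_mod_cast h2
      obtain ⟨Q, hQ, hQm⟩ := Finset.exists_subset_card_eq hmcard
      have hQu : ∀ i ∈ Q, y i = u := fun i hi => (mem_filter.1 (hQ hi)).2
      -- the two parts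
      let p : ι → Prop := fun i => y i = v ∨ i ∈ Q
      have hadd := Fintype.sum_subtype_add_sum_subtype p (fun i => y i ^ 2)
      have hA : ∑ i : {i // p i}, y i ^ 2 = a v + m * u ^ 2 := by
        rw [← Finset.sum_subtype (univ.filter p) (fun x => by simp) fun i => y i ^ 2]
        have h1 : univ.filter p = (univ.filter fun i => y i = v) ∪ Q := by
          ext i
          simp [p]
        have h2 : Disjoint (univ.filter fun i => y i = v) Q := by
          rw [Finset.disjoint_left]
          intro i h3 h4
          exact huv ((hQu i h4).symm.trans (mem_filter.1 h3).2)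
        have h3 : ∑ i with y i = v, y i ^ 2 = (univ.filter fun i => y i = v).card * v ^ 2 := by
          rw [← nsmul_eq_mul, ← Finset.sum_const]
          exact Finset.sum_congr rfl fun i hi => by rw [(mem_filter.1 hi).2]
        have h4 : ∑ i ∈ Q, y i ^ 2 = m * u ^ 2 := by
          rw [← hQm, ← nsmul_eq_mul, ← Finset.sum_const]
          exact Finset.sum_congr rfl fun i hi => by rw [hQu i hi]
        rw [h1, Finset.sum_union h2, ha, h3, h4]
      rw [hA] at hadd
      have hrest : 3 * ((r : ℝ) + 1) * h ^ 2 ≤ ∑ i : {i // ¬ p i}, y i ^ 2 := by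
        have e : 3 * ((r : ℝ) + 1 + 1) * h ^ 2 = 3 * ((r : ℝ) + 1) * h ^ 2 + 3 * h ^ 2 := by ring
        rw [e] at hV
        linarith
      have h2 : Box (fun i : {i // ¬ p i} => y i) ((∑ i : {i // ¬ p i}, y i ^ 2) / h) h :=
        ih _ _ (fun i => hy0 i) (fun i => hyM i) (hsub v p hv fun i hi => Or.inl hi) hrest
      have h1 : Box (fun i : {i // p i} => y i) ((a v + m * u ^ 2) / h) h := by
        let q : {i // p i} → Prop := fun i => y i = v
        have hq1 : Nonempty {a : {i // p i} // q a} := ⟨⟨⟨i0, Or.inl hi0⟩, hi0⟩⟩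
        have hnu : ∀ a : {a : {i // p i} // ¬ q a}, y a = u := fun a =>
          hQu _ (a.1.2.resolve_left a.2)
        have hcard1 : Fintype.card {a : {i // p i} // q a} =
            (univ.filter fun i => y i = v).card := by
          rw [← Fintype.card_subtype]
          refine Fintype.card_congr ⟨fun a => ⟨a.1, a.2⟩, fun a => ⟨⟨a.1, Or.inl a.2⟩, a.2⟩,
            fun a => rfl, fun a => rfl⟩
        have hcard2 : Fintype.card {a : {i // p i} // ¬ q a} = m := by
          rw [← hQm, ← Fintype.card_coe]
          refine Fintype.card_congr ⟨fun a => ⟨a.1, a.1.2.resolve_left a.2⟩,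
            fun a => ⟨⟨a.1, Or.inr a.2⟩, fun h => huv ((hQu _ a.2).symm.trans h)⟩,
            fun a => rfl, fun a => rfl⟩
        have hm0 : 0 < m := by
          by_contra hcon
          have : m = 0 := by omega
          rw [this] at hm1
          simp only [Nat.cast_zero, zero_mul] at hm1
          linarith
        have hq2 : Nonempty {a : {i // p i} // ¬ q a} := by
          rw [← Fintype.card_pos_iff, hcard2]; exact hm0
        have hn0 : 0 < (univ.filter fun i => y i = v).card :=
          card_pos.2 ⟨i0, mem_filter.2 ⟨mem_univ _, hi0⟩⟩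
        have hn0' : (0 : ℝ) < (univ.filter fun i => y i = v).card := by exact_mod_cast hn0
        have hb2 : 2 * h ≤ (a v + m * u ^ 2) / h := by
          rw [le_div_iff₀ hh]
          have : 0 ≤ a v := by rw [ha]; positivity
          nlinarith
        refine Box.cornerP q (b1 := (univ.filter fun i => y i = v).card * v) (h1 := v)
          (b2 := m * u ^ 2 / (h / 2)) hh (by positivity) hv0 (by linarith) (by linarith)
          (by linarith) ?_ ?_ ?_
        · rw [div_mul_cancel₀ _ hh.ne', div_mul_cancel₀ _ (by positivity), ha]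
          ring
        · have := Box.rowE (κ := {a : {i // p i} // q a}) (y := fun a => y a) hv0 fun a => a.2
          rwa [hcard1] at this
        · refine Box.flatE (κ := {a : {i // p i} // ¬ q a}) (y := fun a => y a) hu0 hnu
            (by positivity) ?_ (by linarith) ?_
          · have : 4 * h ≤ m * u ^ 2 / (h / 2) := by
              rw [le_div_iff₀ (by positivity)]
              nlinarith
            linarith
          · rw [div_mul_cancel₀ _ (by positivity), hcard2]
      have hpos1 : 0 < (a v + m * u ^ 2) / h := by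
        have : 0 ≤ a v := by rw [ha]; positivity
        have : 0 < a v + m * u ^ 2 := by linarith
        positivity
      have hpos2 : 0 < (∑ i : {i // ¬ p i}, y i ^ 2) / h := by
        have : 0 < 3 * ((r : ℝ) + 1) * h ^ 2 := by positivity
        have : 0 < ∑ i : {i // ¬ p i}, y i ^ 2 := by linarith
        positivity
      have h4 := Box.split p hpos1 hpos2 hh h1 h2
      refine h4.congr ?_ rfl
      rw [← hadd, add_div]
    · -- all groups are large
      push Not at hsmall
      by_cases hex : ∃ v ∈ univ.image y, a v ≤ 3 * h ^ 2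
      · obtain ⟨v, hv, hav⟩ := hex
        refine hlarge v hv (hsmall v hv) ?_
        have e : 3 * ((r : ℝ) + 1 + 1) * h ^ 2 = 3 * ((r : ℝ) + 1) * h ^ 2 + 3 * h ^ 2 := by ring
        rw [e] at hV
        linarith
      · push Not at hex
        obtain ⟨v, hv⟩ := hne
        refine hlarge v hv (hsmall v hv) ?_
        have h1 : ∑ u ∈ (univ.image y).erase v, a u = ∑ i, y i ^ 2 - a v := by
          rw [← hsum, ← Finset.add_sum_erase _ _ hv]; ring
        rw [← h1]
        have h2 : ∑ u ∈ (univ.image y).erase v, 3 * h ^ 2 ≤ ∑ u ∈ (univ.image y).erase v, a u :=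
          Finset.sum_le_sum fun u hu => (hex u (mem_of_mem_erase hu)).le
        rw [Finset.sum_const, card_erase_of_mem hv, hcardeq, nsmul_eq_mul] at h2
        refine le_trans (le_of_eq ?_) h2
        push_cast
        ring

end Pool.Agent.J6H57.WS
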