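import Pool.Agent.TH880.NB.Cls
import Pool.Agent.TH366.RC.Cut

/-!
Ranks of the conditions imposed by points with different multiplicities: gluing along a line, and
the asymptotic form.
-/

set_option autoImplicit false

namespace Pool.Agent.J6H57.WS

open Finset Pool.Agent.TH176.Nag Pool.Agent.TH880.NB

/-- gluing along a line -/
theorem Rk_cut {ι κ : Type} [Finite ι] [Finite κ] {w : ι → ℕ} {v : κ → ℕ}
    {S U X : Set (ℤ × ℤ)} {N M : ℕ} (p q : ℝ)
    (hcut : ∀ m ∈ S, ∀ m' ∈ U, p * m.1 + q * m.2 < p * m'.1 + q * m'.2) (hS : S ⊆ X) (hU : U ⊆ X)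
    (h1 : Rk w S N) (h2 : Rk v U M) : Rk (Sum.elim w v) X (N + M) := by
  classical
  obtain ⟨T1, hT1, hN, hE1⟩ := h1
  obtain ⟨T2, hT2, hM, hE2⟩ := h2
  have hdisj : Disjoint T1 T2 := by
    rw [Finset.disjoint_left]
    intro m h3 h4
    exact lt_irrefl _ (hcut m (hT1 h3) m (hT2 h4))
  refine ⟨T1 ∪ T2, ?_, ?_, ?_⟩
  · intro m hm
    rw [Finset.mem_coe, Finset.mem_union] at hm
    rcases hm with h | h
    · exact hS (hT1 h)
    · exact hU (hT2 h)
  · rw [Finset.card_union_of_disjoint hdisj, hN, hM]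
  · -- shift to nonnegative exponents
    obtain ⟨c, hc⟩ : ∃ c : ℕ, ∀ m ∈ T1 ∪ T2, 0 ≤ m.1 + (c : ℤ) ∧ 0 ≤ m.2 + (c : ℤ) := by
      refine ⟨∑ m ∈ T1 ∪ T2, (m.1.natAbs + m.2.natAbs), fun m hm => ?_⟩
      have : m.1.natAbs + m.2.natAbs ≤ ∑ m ∈ T1 ∪ T2, (m.1.natAbs + m.2.natAbs) :=
        Finset.single_le_sum (f := fun m : ℤ × ℤ => m.1.natAbs + m.2.natAbs)
          (fun _ _ => Nat.zero_le _) hm
      omega
    let S' : Set (ℤ × ℤ) := {m | (m.1 - (c : ℤ), m.2 - (c : ℤ)) ∈ (↑T1 : Set (ℤ × ℤ))}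
    let U' : Set (ℤ × ℤ) := {m | (m.1 - (c : ℤ), m.2 - (c : ℤ)) ∈ (↑T2 : Set (ℤ × ℤ))}
    have hfin : ∀ T : Finset (ℤ × ℤ),
        ({m : ℤ × ℤ | (m.1 - (c : ℤ), m.2 - (c : ℤ)) ∈ (↑T : Set (ℤ × ℤ))}).Finite := by
      intro T
      refine (T.image fun m => (m.1 + (c : ℤ), m.2 + (c : ℤ))).finite_toSet.subset ?_
      intro m hm
      rw [Finset.mem_coe, Finset.mem_image]
      exact ⟨_, hm, by ext <;> simp⟩
    have h3 : Emp (Sum.elim w v) (S' ∪ U') := by
      refine Pool.Agent.TH366.RC.Emp_cutR (hfin T1) (hfin T2) ?_ ?_ p q ?_ ?_ ?_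
      · intro m hm
        have h4 := hc _ (Finset.mem_union_left T2 (Finset.mem_coe.1 hm))
        simp only at h4
        omega
      · intro m hm
        have h4 := hc _ (Finset.mem_union_right T1 (Finset.mem_coe.1 hm))
        simp only at h4
        omega
      · intro m hm m' hm'
        have h4 := hcut _ (hT1 hm) _ (hT2 hm')
        push_cast at h4
        linarith
      · refine hE1.comap 1 0 0 1 (-c) (-c) (by norm_num) ?_
        intro m hm
        have e : ((1 * m.1 + 0 * m.2 + -(c : ℤ), 0 * m.1 + 1 * m.2 + -(c : ℤ)) : ℤ × ℤ) =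
            (m.1 - (c : ℤ), m.2 - (c : ℤ)) := by ext <;> simp <;> ring
        rw [e]
        exact hm
      · refine hE2.comap 1 0 0 1 (-c) (-c) (by norm_num) ?_
        intro m hm
        have e : ((1 * m.1 + 0 * m.2 + -(c : ℤ), 0 * m.1 + 1 * m.2 + -(c : ℤ)) : ℤ × ℤ) =
            (m.1 - (c : ℤ), m.2 - (c : ℤ)) := by ext <;> simp <;> ring
        rw [e]
        exact hm
    refine h3.comap 1 0 0 1 c c (by norm_num) ?_
    intro m hm
    have e : ((1 * m.1 + 0 * m.2 + (c : ℤ), 0 * m.1 + 1 * m.2 + (c : ℤ)) : ℤ × ℤ) =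
        (m.1 + (c : ℤ), m.2 + (c : ℤ)) := by ext <;> simp
    rw [e]
    rw [Finset.mem_coe, Finset.mem_union] at hm
    rcases hm with h | h
    · left
      show ((m.1 + (c : ℤ) - (c : ℤ), m.2 + (c : ℤ) - (c : ℤ)) : ℤ × ℤ) ∈ (↑T1 : Set (ℤ × ℤ))
      rw [add_sub_cancel_right, add_sub_cancel_right]
      exact h
    · right
      show ((m.1 + (c : ℤ) - (c : ℤ), m.2 + (c : ℤ) - (c : ℤ)) : ℤ × ℤ) ∈ (↑T2 : Set (ℤ × ℤ))
      rw [add_sub_cancel_right, add_sub_cancel_right]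
      exact h

theorem Rk_reindex {ι κ : Type} (e : κ ≃ ι) {w : ι → ℕ} {S : Set (ℤ × ℤ)} {N : ℕ}
    (h : Rk w S N) : Rk (fun j => w (e j)) S N := by
  obtain ⟨T, h1, h2, h3⟩ := h
  exact ⟨T, h1, h2, Pool.Agent.TH366.RC.Emp_reindex e h3⟩

/-- asymptotic independence of the conditions imposed by points with multiplicities `w i ≤ y i s`
on the multiples `s` of the triangle with base `B` and slopes `μ, ν` -/
def AW {ι : Type} [Fintype ι] (y : ι → ℝ) (B μ ν : ℝ) : Prop :=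
  ∀ η : ℝ, 0 < η → ∃ s0 : ℕ, ∀ s : ℕ, s0 ≤ s → ∀ w : ι → ℕ, (∀ i, (w i : ℝ) ≤ y i * s) →
    ∀ α : ℝ, Rk w (Reg α (α + (B + η) * s) μ ν) (∑ i, (w i + 1).choose 2)

section moves
variable {ι : Type} [Fintype ι] {y : ι → ℝ} {B μ ν : ℝ}

theorem AW.reindex {κ : Type} [Fintype κ] (e : κ ≃ ι) (h : AW y B μ ν) :
    AW (fun j => y (e j)) B μ ν := by
  intro η hη
  obtain ⟨s0, hs0⟩ := h η hη
  refine ⟨s0, fun s hs w hw α => ?_⟩
  have h1 := hs0 s hs (fun i => w (e.symm i)) (fun i => by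
    have := hw (e.symm i)
    simp only [Equiv.apply_symm_apply] at this
    exact this) α
  have h2 := Rk_reindex e h1
  simp only [Equiv.symm_apply_apply] at h2
  rw [Equiv.sum_comp e.symm fun j => (w j + 1).choose 2] at h2
  exact h2

theorem AW.regA {B' μ' ν' : ℝ} (x z u v : ℤ) (hdet : x * u + z * v = 1) (hx : 0 ≤ x)
    (h1 : 0 ≤ x * μ + z) (h2 : x * ν ≤ z) (hn : 0 < μ + ν)
    (hB : B' * (μ + ν) = (z + x * μ) * B)
    (hμ : μ' = x * (x * μ + z)) (hν : ν' * (μ + ν) = (z - x * ν) * (z + x * μ))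
    (h : AW y B' μ' ν') : AW y B μ ν := by
  intro η hη
  have hX : 0 < (z : ℝ) + x * μ := by
    rcases lt_or_eq_of_le h1 with h3 | h3
    · linarith
    · exfalso
      have hx' : (0 : ℝ) ≤ x := by exact_mod_cast hx
      have h4 : (x : ℝ) * (μ + ν) = 0 := by
        have : 0 ≤ (x : ℝ) * (μ + ν) := mul_nonneg hx' hn.le
        linarith
      have h5 : (x : ℝ) = 0 := (mul_eq_zero.1 h4).resolve_right hn.ne'
      have h6 : (z : ℝ) = 0 := by rw [h5] at h3; linarith
      have hdet' : (x : ℝ) * u + z * v = 1 := by exact_mod_cast hdet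
      rw [h5, h6] at hdet'
      simp at hdet'
  set c : ℝ := (z + x * μ) / (μ + ν) with hc
  have hc0 : 0 < c := div_pos hX hn
  have hcn : c * (μ + ν) = z + x * μ := by rw [hc]; field_simp
  obtain ⟨s1, hs1⟩ := h (η * c / 2) (by positivity)
  obtain ⟨s2, hs2⟩ := exists_large (η := η * c / 2) (c := μ' + ν') (by positivity)
  refine ⟨max s1 s2, fun s hs w hw α => ?_⟩
  have hs1' := hs1 s ((le_max_left _ _).trans hs) w hw
  have hs2' := hs2 s ((le_max_right _ _).trans hs)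
  refine Rk_regA x z u v hdet hx h1 h2 hn (α' := x * α) (β' := x * α + (B' + η * c) * s)
    (μ' := μ') (ν' := ν') rfl ?_ hμ hν ?_
  · linear_combination (s : ℝ) * hB + η * s * hcn
  · refine (hs1' (x * α + μ')).mono (Reg_mono le_rfl ?_)
    have e : x * α + μ' + (B' + η * c / 2) * s = x * α + (B' + η * c) * s + μ' - η * c / 2 * s := by
      ring
    rw [e]
    linarith

theorem AW.regC {B' μ' ν' : ℝ} (x z u v : ℤ) (hdet : x * u + z * v = 1) (hx : 0 ≤ x)
    (h1 : 0 ≤ x * μ + z) (h2 : (z : ℝ) ≤ x * ν)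
    (hB : B' = x * B) (hμ : μ' = x * (x * μ + z)) (hν : ν' = x * (x * ν - z))
    (h : AW y B' μ' ν') : AW y B μ ν := by
  intro η hη
  have hx0 : (0 : ℝ) < x := by
    have hx' : (0 : ℝ) ≤ x := by exact_mod_cast hx
    have hdet' : (x : ℝ) * u + z * v = 1 := by exact_mod_cast hdet
    rcases lt_or_eq_of_le hx' with h3 | h3
    · exact h3
    · exfalso
      rw [← h3] at h1 h2 hdet'
      have h4 : (z : ℝ) = 0 := by linarith
      rw [h4] at hdet'
      simp at hdet'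
  obtain ⟨s1, hs1⟩ := h (η * x / 2) (by positivity)
  obtain ⟨s2, hs2⟩ := exists_large (η := η * x / 2) (c := μ' + ν') (by positivity)
  refine ⟨max s1 s2, fun s hs w hw α => ?_⟩
  have hs1' := hs1 s ((le_max_left _ _).trans hs) w hw
  have hs2' := hs2 s ((le_max_right _ _).trans hs)
  refine Rk_regC x z u v hdet hx h1 h2 (α' := x * α) (β' := x * (α + (B + η) * s))
    (μ' := μ') (ν' := ν') rfl rfl hμ hν ?_
  refine (hs1' (x * α + μ')).mono (Reg_mono le_rfl ?_)
  rw [hB]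
  have e : x * α + μ' + (x * B + η * x / 2) * s = x * (α + (B + η) * s) + μ' - η * x / 2 * s := by
    ring
  rw [e]
  linarith

theorem AW.mirror (h : AW y B ν μ) : AW y B μ ν := by
  intro η hη
  obtain ⟨s0, hs0⟩ := h η hη
  refine ⟨s0, fun s hs w hw α => Rk_mirror ?_⟩
  have := hs0 s hs w hw (-(α + (B + η) * s))
  have e : -(α + (B + η) * s) + (B + η) * s = -α := by ring
  rwa [e] at this

theorem AW.congr {B' μ' ν' : ℝ} (h : AW y B μ ν) (hB : B' = B) (hμ : μ' = μ) (hν : ν' = ν) :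
    AW y B' μ' ν' := by
  rw [hB, hμ, hν]
  exact h

end moves

/-! ### Boxes -/

/-- the right triangle with base `b` and height `h` -/
def Box {ι : Type} [Fintype ι] (y : ι → ℝ) (b h : ℝ) : Prop := AW y b 0 (b / h)

section box
variable {ι : Type} [Fintype ι] {y : ι → ℝ} {b h : ℝ}

theorem Box.reindex {κ : Type} [Fintype κ] (e : κ ≃ ι) (hB : Box y b h) :
    Box (fun j => y (e j)) b h := AW.reindex e hB

/-- exchange of base and height -/
theorem Box.swap (hb : 0 < b) (hh : 0 < h) (hB : Box y b h) : Box y h b := by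
  unfold Box at hB ⊢
  refine AW.regA 0 1 0 1 (by norm_num) le_rfl (by norm_num) (by norm_num) (by positivity)
    (B' := b) (μ' := 0) (ν' := b / h) ?_ (by simp) ?_ hB
  · push_cast
    field_simp
    ring
  · push_cast
    field_simp
    ring

/-- every triangle with base `b` and height `h` -/
theorem Box.all (hb : 0 < b) (hh : 0 < h) (hB : Box y b h) {μ ν : ℝ} (hμν : μ + ν = b / h) :
    AW y b μ ν := by
  have h1 : AW y h 0 (h / b) := hB.swap hb hh
  refine AW.regA 0 1 0 1 (by norm_num) le_rfl (by norm_num) (by norm_num)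
    (by rw [hμν]; positivity) (B' := h) (μ' := 0) (ν' := h / b) ?_ (by simp) ?_ h1
  · rw [hμν]
    push_cast
    field_simp
    ring
  · rw [hμν]
    push_cast
    field_simp
    ring

/-- doubling of the base -/
theorem Box.stretch (hb : 0 < b) (hh : 0 < h) (hbh : h ≤ 2 * b) (hB : Box y (2 * b) (h / 2)) :
    Box y b h := by
  have h2 : (1 : ℝ) ≤ 2 * (b / h) := by
    rw [← mul_div_assoc, le_div_iff₀ hh]
    linarith
  refine AW.regC 2 1 0 1 (by norm_num) (by norm_num) (by norm_num) (by push_cast; linarith)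
    (B' := 2 * b) (μ' := 2) (ν' := 2 * (2 * (b / h) - 1)) (by push_cast; ring)
    (by push_cast; ring) (by push_cast; ring) ?_
  refine hB.all (by positivity) (by positivity) ?_
  field_simp
  ring

/-- the slanted triangle -/
theorem AW.slant {B μ ν : ℝ} (hb : 0 < b) (hh : 0 < h) (v : ℤ) (hσ : 0 < μ + ν)
    (hv : ν ≤ v) (hB : (v + μ) * B = b * (μ + ν)) (hs : (μ + v) ^ 2 = (μ + ν) * (b / h))
    (hbox : Box y b h) : AW y B μ ν := by
  have hpos : 0 < μ + v := by linarith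
  refine AW.regA 1 v 1 0 (by norm_num) (by norm_num) (by push_cast; linarith)
    (by push_cast; linarith) hσ (B' := b) (μ' := μ + v)
    (ν' := (v - ν) * (v + μ) / (μ + ν)) ?_ ?_ ?_ ?_
  · push_cast
    linear_combination -hB
  · push_cast
    ring
  · push_cast
    field_simp
  · refine hbox.all hb hh ?_
    have e : μ + ↑v + (↑v - ν) * (↑v + μ) / (μ + ν) = (μ + v) ^ 2 / (μ + ν) := by
      field_simp
      ring
    rw [e, hs]
    field_simp

/-- one point -/
theorem Box.single {l : ℝ} (hl : 0 < l) : Box (fun _ : Fin 1 => l) l l := by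
  unfold Box
  rw [div_self hl.ne']
  intro η hη
  refine ⟨0, fun s _ w hw α => ?_⟩
  have h1 := Rk_base 1 (w 0) (α := α) (μ := 0) (ν := 1) le_rfl zero_le_one (by norm_num)
  have e1 : w = fun _ : Fin 1 => w 0 := by
    funext i
    rw [Subsingleton.elim i 0]
  have e2 : ∑ i, (w i + 1).choose 2 = 1 * (w 0 + 1).choose 2 := by simp
  rw [e2]
  rw [← e1] at h1
  refine h1.mono (Reg_mono le_rfl ?_)
  have h2 := hw 0
  have h3 : 0 ≤ η * (s : ℝ) := by positivity
  push_cast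
  linarith

end box

/-- gluing of two boxes of the same height -/
theorem Box.join {ι κ : Type} [Fintype ι] [Fintype κ] {y : ι → ℝ} {z : κ → ℝ} {b c h : ℝ}
    (hb : 0 < b) (hc : 0 < c) (hh : 0 < h) (h1 : Box y b h) (h2 : Box z c h) :
    Box (Sum.elim y z) (b + c) h := by
  intro η hη
  obtain ⟨t, ht⟩ : ∃ t : ℝ, t = η * h / (2 * (b + c)) := ⟨_, rfl⟩
  have ht0 : 0 < t := by rw [ht]; positivity
  obtain ⟨ρ1, hρ1⟩ : ∃ ρ1 : ℝ, ρ1 = b / h := ⟨_, rfl⟩
  obtain ⟨ρ2, hρ2⟩ : ∃ ρ2 : ℝ, ρ2 = c / h := ⟨_, rfl⟩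
  have hρ10 : 0 < ρ1 := by rw [hρ1]; positivity
  have hρ20 : 0 < ρ2 := by rw [hρ2]; positivity
  have eb : b = ρ1 * h := by rw [hρ1]; field_simp
  have ec : c = ρ2 * h := by rw [hρ2]; field_simp
  have h2' : AW z c (-ρ1) (ρ1 + ρ2) := h2.all hc hh (by rw [← hρ2]; ring)
  obtain ⟨s1, hs1⟩ := h1 (ρ1 * t) (by positivity)
  obtain ⟨s2, hs2⟩ := h2' (ρ2 * t) (by positivity)
  obtain ⟨s3, hs3⟩ := exists_large (η := η / 2) (c := 1) (by positivity)
  refine ⟨max (max s1 s2) s3, fun s hs w hw α => ?_⟩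
  have hs1' := hs1 s (((le_max_left _ _).trans (le_max_left _ _)).trans hs) (fun i => w (Sum.inl i))
    (fun i => hw (Sum.inl i)) α
  have hs2' := hs2 s (((le_max_right _ _).trans (le_max_left _ _)).trans hs)
    (fun i => w (Sum.inr i)) (fun i => hw (Sum.inr i)) (α + (b + ρ1 * t) * s + 1)
  have hs3' := hs3 s ((le_max_right _ _).trans hs)
  have hs0 : (0 : ℝ) ≤ s := Nat.cast_nonneg s
  have e1 : w = Sum.elim (fun i => w (Sum.inl i)) fun i => w (Sum.inr i) := by
    funext i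
    rcases i with i | i <;> rfl
  rw [e1, Fintype.sum_sum_type]
  simp only [Sum.elim_inl, Sum.elim_inr]
  rw [← hρ1] at hs1'
  have hρ : (b + c) / h = ρ1 + ρ2 := by rw [hρ1, hρ2]; ring
  have htη : (ρ1 + ρ2) * t = η / 2 := by
    rw [ht, ← hρ]; field_simp
  rw [hρ]
  refine Rk_cut 1 ρ1 ?_ ?_ ?_ hs1' hs2'
  · rintro m ⟨-, -, h3⟩ m' ⟨-, h5, -⟩
    linarith
  · rintro m ⟨h3, h4, h5⟩
    refine ⟨h3, h4, ?_⟩
    -- below the hypotenuse
    have hm2 : (0 : ℝ) ≤ m.2 := by exact_mod_cast h3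
    have hx0 : α ≤ m.1 := by linarith
    have h6 : ρ1 * (m.2 : ℝ) ≤ ρ1 * ((h + t) * s) := by
      have : ρ1 * ((h + t) * s) = (b + ρ1 * t) * s := by rw [eb]; ring
      rw [this]
      linarith
    have h7 : (m.2 : ℝ) ≤ (h + t) * s := le_of_mul_le_mul_left h6 hρ10
    have h8 : ρ2 * (m.2 : ℝ) ≤ ρ2 * ((h + t) * s) := mul_le_mul_of_nonneg_left h7 hρ20.le
    have h9 : (b + c + η) * (s : ℝ) = (b + ρ1 * t) * s + ρ2 * ((h + t) * s) + η / 2 * s := by
      have : ρ2 * ((h + t) * s) = (c + ρ2 * t) * s := by rw [ec]; ring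
      rw [this]
      linear_combination (-(s : ℝ)) * htη
    rw [h9]
    have h10 : 0 ≤ η / 2 * (s : ℝ) := by positivity
    linarith
  · rintro m ⟨h3, h4, h5⟩
    have hm2 : (0 : ℝ) ≤ m.2 := by exact_mod_cast h3
    -- `ρ2 m.2 ≤ (c + ρ2 t) s`
    have h6 : ρ2 * (m.2 : ℝ) ≤ ρ2 * ((h + t) * s) := by
      have : ρ2 * ((h + t) * s) = (c + ρ2 * t) * s := by rw [ec]; ring
      rw [this]
      linarith
    have h7 : (m.2 : ℝ) ≤ (h + t) * s := le_of_mul_le_mul_left h6 hρ20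
    have h8 : ρ1 * (m.2 : ℝ) ≤ (b + ρ1 * t) * s := by
      have : ρ1 * ((h + t) * s) = (b + ρ1 * t) * s := by rw [eb]; ring
      rw [← this]
      exact mul_le_mul_of_nonneg_left h7 hρ10.le
    refine ⟨h3, by linarith, ?_⟩
    have h9 : (b + c + η) * (s : ℝ) = (b + ρ1 * t) * s + (c + ρ2 * t) * s + η / 2 * s := by
      linear_combination (-(s : ℝ)) * htη
    rw [h9]
    linarith

/-- `n` equal points in a row -/
theorem Box.row {l : ℝ} (hl : 0 < l) (n : ℕ) : Box (fun _ : Fin (n + 1) => l) ((n + 1) * l) l := by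
  induction n with
  | zero =>
    have := Box.single hl
    simpa using this
  | succ n ih =>
    have h1 := ih.join (by positivity) hl hl (Box.single hl)
    have h2 := h1.reindex (finSumFinEquiv (m := n + 1) (n := 1)).symm
    have e1 : (fun j => Sum.elim (fun _ : Fin (n + 1) => l) (fun _ : Fin 1 => l)
        ((finSumFinEquiv (m := n + 1) (n := 1)).symm j)) = fun _ : Fin (n + 1 + 1) => l := by
      funext j
      rcases (finSumFinEquiv (m := n + 1) (n := 1)).symm j with i | i <;> rfl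
    rw [e1] at h2
    have e2 : ((n : ℝ) + 1) * l + l = (((n + 1 : ℕ) : ℝ) + 1) * l := by push_cast; ring
    rw [e2] at h2
    exact h2

end Pool.Agent.J6H57.WS
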