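import Pool.Agent.TH793.NS.Tube
import Pool.Agent.TH266.NS.Rank
import Pool.Agent.TH643.NS.Fij
import Pool.Agent.TH558.NS.Trans
import Pool.Agent.J6H57.WS.Ranks

/-!
Rank transfer along a nodal tube, for right triangles of any real ratio `ρ ≥ 3 / 2`.
-/

set_option autoImplicit false

namespace Pool.Agent.J6H57.WS

open Pool.Agent.TH603.EL Pool.Agent.TH880.NB Pool.Agent.TH176.Nag Pool.Agent.TH266.NS

variable {F : Type} [Field F]

/-- combinations of the monomials of weight at most `e` -/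
noncomputable def WR (x y : HR F) (ρ e : ℝ) : AddSubmonoid (HR F) :=
  AddSubmonoid.closure {f | ∃ (c : HK F) (a b : ℕ), (a : ℝ) + ρ * b ≤ e ∧
    f = incl c * (x ^ a * y ^ b)}

theorem WR_gen {x y : HR F} {ρ e : ℝ} (c : HK F) (a b : ℕ) (h : (a : ℝ) + ρ * b ≤ e) :
    incl c * (x ^ a * y ^ b) ∈ WR x y ρ e :=
  AddSubmonoid.subset_closure ⟨c, a, b, h, rfl⟩

theorem WR_mul {x y : HR F} {ρ e e' : ℝ} {f g : HR F} (hf : f ∈ WR x y ρ e)
    (hg : g ∈ WR x y ρ e') : f * g ∈ WR x y ρ (e + e') := by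
  unfold WR at hf
  induction hf using AddSubmonoid.closure_induction with
  | mem f hf =>
    obtain ⟨c, a, b, h1, rfl⟩ := hf
    unfold WR at hg
    induction hg using AddSubmonoid.closure_induction with
    | mem g hg =>
      obtain ⟨c', a', b', h2, rfl⟩ := hg
      have e1 : incl c * (x ^ a * y ^ b) * (incl c' * (x ^ a' * y ^ b')) =
          incl (c * c') * (x ^ (a + a') * y ^ (b + b')) := by
        rw [map_mul, pow_add, pow_add]
        ring
      rw [e1]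
      refine WR_gen _ _ _ ?_
      push_cast
      linarith
    | zero => rw [mul_zero]; exact zero_mem _
    | add g g' _ _ h h' => rw [mul_add]; exact add_mem h h'
  | zero => rw [zero_mul]; exact zero_mem _
  | add f f' _ _ h h' => rw [add_mul]; exact add_mem h h'

theorem WR_one (x y : HR F) (ρ : ℝ) : (1 : HR F) ∈ WR x y ρ 0 := by
  have h := WR_gen (x := x) (y := y) (ρ := ρ) (e := 0) (1 : HK F) 0 0 (by simp)
  simpa using h

theorem WR_pow {x y : HR F} {ρ e : ℝ} {f : HR F} (hf : f ∈ WR x y ρ e) (n : ℕ) :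
    f ^ n ∈ WR x y ρ (n * e) := by
  induction n with
  | zero => simpa using WR_one x y ρ
  | succ n ih =>
    rw [pow_succ]
    have h := WR_mul ih hf
    have e1 : (n : ℝ) * e + e = ((n + 1 : ℕ) : ℝ) * e := by push_cast; ring
    rwa [e1] at h

theorem exists_of_WR {x y : HR F} {ρ e : ℝ} {f : HR F} (hf : f ∈ WR x y ρ e) :
    ∃ P : (ℤ × ℤ) →₀ HK F, (↑P.support : Set (ℤ × ℤ)) ⊆
      {m | 0 ≤ m.1 ∧ 0 ≤ m.2 ∧ (m.1 : ℝ) + ρ * m.2 ≤ e} ∧ evU x y P = f := by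
  classical
  unfold WR at hf
  induction hf using AddSubmonoid.closure_induction with
  | mem f hf =>
    obtain ⟨c, a, b, h1, rfl⟩ := hf
    refine ⟨Finsupp.single ((a : ℤ), (b : ℤ)) c, ?_, ?_⟩
    · intro m hm
      have hm' := Finsupp.support_single_subset hm
      rw [Finset.mem_singleton] at hm'
      subst hm'
      exact ⟨by simp, by simp, by push_cast; exact h1⟩
    · rw [Fij.evU_single]
      simp
  | zero => exact ⟨0, by simp, by simp [evU]⟩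
  | add f g _ _ h h' =>
    obtain ⟨P, hP, rfl⟩ := h
    obtain ⟨Q, hQ, rfl⟩ := h'
    refine ⟨P + Q, ?_, Fij.evU_add x y P Q⟩
    intro m hm
    rcases Finset.mem_union.1 (Finsupp.support_add hm) with h | h
    · exact hP h
    · exact hQ h

theorem hh_memR (x y : HR F) {ρ : ℝ} (hρ : 3 ≤ 2 * ρ) : hh x y ∈ WR x y ρ (2 * ρ) := by
  have e1 : hh x y = incl 1 * (x ^ 0 * y ^ 2) + incl (-1) * (x ^ 2 * y ^ 0) +
      incl (-1) * (x ^ 3 * y ^ 0) + incl (HahnSeries.single 1 1 : HK F) * (x ^ 0 * y ^ 0) +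
      incl (HahnSeries.single 1 1 : HK F) * (x ^ 1 * y ^ 0) := by
    unfold hh
    rw [Fij.incl_t, map_neg, map_one]
    ring
  rw [e1]
  refine add_mem (add_mem (add_mem (add_mem ?_ ?_) ?_) ?_) ?_
  · exact WR_gen _ _ _ (by push_cast; linarith)
  · exact WR_gen _ _ _ (by push_cast; linarith)
  · exact WR_gen _ _ _ (by push_cast; linarith)
  · exact WR_gen _ _ _ (by push_cast; linarith)
  · exact WR_gen _ _ _ (by push_cast; linarith)

theorem gg_memR (x y : HR F) {ρ E : ℝ} (hρ : 3 ≤ 2 * ρ) {M : ℕ} (hM : (M : ℝ) ≤ 2 * E)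
    (a : ℕ → HK F) : gg x y M a ∈ WR x y ρ (E + ρ - 3 / 2) := by
  unfold gg
  refine sum_mem fun m hm => ?_
  unfold EE at hm
  rw [Finset.mem_erase, Finset.mem_range] at hm
  obtain ⟨hm1, hm2⟩ := hm
  have hmM : (m : ℝ) ≤ M := by
    have : m ≤ M := by omega
    exact_mod_cast this
  unfold bb
  split_ifs with h
  · obtain ⟨c, hc⟩ := h
    have hc' : m / 2 = c := by omega
    have hmc : (m : ℝ) = c + c := by exact_mod_cast hc
    have h1 := WR_gen (x := x) (y := y) (ρ := ρ) (e := E + ρ - 3 / 2) (a m) (m / 2) 0 (by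
      rw [hc']
      push_cast
      linarith)
    simpa using h1
  · have h0 : m % 2 = 1 := Nat.odd_iff.1 (Nat.not_even_iff_odd.1 h)
    obtain ⟨c, hc⟩ : ∃ c, m = 2 * c + 3 := ⟨(m - 3) / 2, by omega⟩
    have hc' : (m - 3) / 2 = c := by omega
    have hmc : (m : ℝ) = 2 * c + 3 := by exact_mod_cast hc
    have h1 := WR_gen (x := x) (y := y) (ρ := ρ) (e := E + ρ - 3 / 2) (a m) ((m - 3) / 2) 1 (by
      rw [hc']
      push_cast
      linarith)
    simpa using h1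

/-- the open triangle of slope `τ` (a little smaller than `base 2 e`, slopes `4 ρ τ`,
`4 ρ (1 - τ)`) -/
def TriR (ρ e τ : ℝ) : Set (ℤ × ℤ) :=
  {m | 0 ≤ m.2 ∧ -((2 * (e - 2 * ρ * m.2) - 1) * τ) < m.1 ∧
    (m.1 : ℝ) < (2 * (e - 2 * ρ * m.2) - 1) * (1 - τ)}

/-- the exponents of the polynomials of weighted degree `≤ e + ρ - 3 / 2` -/
def WtdR (ρ e : ℝ) : Set (ℤ × ℤ) :=
  {m | 0 ≤ m.1 ∧ 0 ≤ m.2 ∧ (m.1 : ℝ) + ρ * m.2 ≤ e + ρ - 3 / 2}

theorem exists_fijR {τ s : ℝ} (T : Tube F τ s) (h0 : 0 < τ) (h1 : τ < 1)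
    {ρ e : ℝ} (hρ : 3 ≤ 2 * ρ) (hs : 2 * e < s) (hs0 : 0 < s) {m : ℤ × ℤ} (hm : m ∈ TriR ρ e τ) :
    ∃ P : (ℤ × ℤ) →₀ HK F, (↑P.support : Set (ℤ × ℤ)) ⊆ WtdR ρ e ∧ Low (evU T.x T.y P) 0 ∧
      (evU T.x T.y P).coeff 0 = AddMonoidAlgebra.single m 1 := by
  obtain ⟨i, j⟩ := m
  obtain ⟨hj, hl, hu⟩ := hm
  simp only at hj hl hu
  obtain ⟨k, rfl⟩ := Int.eq_ofNat_of_zero_le hj
  have hkk : (((k : ℕ) : ℤ) : ℝ) = (k : ℝ) := by push_cast; rfl
  rw [hkk] at hl hu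
  obtain ⟨E, hE⟩ : ∃ E : ℝ, E = e - 2 * ρ * k := ⟨_, rfl⟩
  rw [← hE] at hl hu
  have hpos : 0 < 2 * E - 1 := by nlinarith
  have hρ0 : 0 < ρ := by linarith
  have hEe : E ≤ e := by
    have : 0 ≤ 2 * ρ * k := by positivity
    linarith
  obtain ⟨M, hMdef⟩ : ∃ M : ℕ, M = ⌊2 * E⌋₊ := ⟨_, rfl⟩
  have hM1 : (M : ℝ) ≤ 2 * E := by rw [hMdef]; exact Nat.floor_le (by linarith)
  have hM2 : 2 * E - 1 < M := by
    have := Nat.lt_floor_add_one (2 * E)
    rw [hMdef]; linarith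
  have hM0 : 1 ≤ M := by
    have : (0 : ℝ) < M := by linarith
    exact_mod_cast this
  obtain ⟨a, ha1, ha2, ha3⟩ := exact_mono T h0 h1 hM0 (i := i) (by
    have : (2 * E - 1) * τ ≤ M * τ := mul_le_mul_of_nonneg_right hM2.le h0.le
    linarith) (by
    have : (2 * E - 1) * (1 - τ) ≤ M * (1 - τ) :=
      mul_le_mul_of_nonneg_right hM2.le (by linarith)
    linarith)
  have hsM : 0 < s - (M : ℝ) := by linarith
  -- the sections
  have hG : Low (gg T.x T.y M a - gg T.x0 T.y0 M a) (s - (M : ℝ)) := by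
    have e1 : gg T.x T.y M a - gg T.x0 T.y0 M a =
        ∑ m ∈ EE M, incl (a m) * (bb T.x T.y m - bb T.x0 T.y0 m) := by
      unfold gg
      rw [← Finset.sum_sub_distrib]
      exact Finset.sum_congr rfl fun m _ => by ring
    rw [e1]
    refine Low.sum _ _ fun m hm => ?_
    have h2 := (ha1 m hm).incl.mul (Fij.low_bb_sub T hs0.le m)
    refine h2.mono (le_of_eq ?_)
    ring
  have hG0 : Low (gg T.x T.y M a) 0 := by
    have h2 := (hG.mono hsM.le).add ha2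
    simpa using h2
  have hGc : (gg T.x T.y M a).coeff 0 = AddMonoidAlgebra.single (i, 0) 1 := by
    have h2 : (gg T.x T.y M a - gg T.x0 T.y0 M a).coeff 0 = 0 := hG 0 hsM
    rw [HahnSeries.coeff_sub, ha3, sub_eq_zero] at h2
    exact h2
  -- the equation
  obtain ⟨H, hH⟩ : ∃ H : HR F, H =
    incl (HahnSeries.single (-(1 + s)) (-1 : F)) * hh T.x T.y := ⟨_, rfl⟩
  have hu : Low (incl (HahnSeries.single (-(1 + s)) (-1 : F))) (-(1 + s)) :=
    (low_single (-(1 + s)) (-1 : F)).incl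
  have hH0 : Low H 0 := by
    have h2 := hu.mul T.low_h
    rw [neg_add_cancel] at h2
    rwa [hH]
  have hHc : H.coeff 0 = AddMonoidAlgebra.single (0, 1) 1 := by
    have h2 := hu.coeff_mul T.low_h
    rw [neg_add_cancel, Fij.incl_single, HahnSeries.coeff_single_same, T.lead_h,
      AddMonoidAlgebra.single_mul_single, ← Fij.incl_single, ← hH] at h2
    rw [h2]
    simp
  have hf0 : Low (H ^ k * gg T.x T.y M a) 0 := by
    have h2 := (hH0.pow_zero' k).mul hG0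
    rwa [add_zero] at h2
  have hpow : ∀ n : ℕ, (AddMonoidAlgebra.single ((0 : ℤ), (1 : ℤ)) (1 : F)) ^ n =
      AddMonoidAlgebra.single ((0 : ℤ), (n : ℤ)) (1 : F) := by
    intro n
    rw [AddMonoidAlgebra.single_pow]
    simp
  have hfc : (H ^ k * gg T.x T.y M a).coeff 0 =
      AddMonoidAlgebra.single (i, (k : ℤ)) 1 := by
    have h2 := (hH0.pow_zero' k).coeff_mul hG0
    have h3 := hH0.coeff_pow k
    rw [mul_zero] at h3
    rw [add_zero, h3, hHc, hGc, hpow, AddMonoidAlgebra.single_mul_single] at h2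
    rw [h2]
    simp
  have hmem : H ^ k * gg T.x T.y M a ∈ WR T.x T.y ρ (e + ρ - 3 / 2) := by
    have g1 : incl (HahnSeries.single (-(1 + s)) (-1 : F)) ∈ WR T.x T.y ρ 0 := by
      have h2 := WR_gen (x := T.x) (y := T.y) (ρ := ρ) (e := 0)
        (HahnSeries.single (-(1 + s)) (-1 : F)) 0 0 (by simp)
      simpa using h2
    have g2 := WR_mul g1 (hh_memR T.x T.y hρ)
    rw [← hH] at g2
    have g3 := WR_mul (WR_pow g2 k) (gg_memR T.x T.y hρ hM1 a)
    have e2 : (k : ℝ) * (0 + 2 * ρ) + (E + ρ - 3 / 2) = e + ρ - 3 / 2 := by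
      rw [hE]
      ring
    rwa [e2] at g3
  obtain ⟨P, hP1, hP2⟩ := exists_of_WR hmem
  refine ⟨P, hP1, ?_, ?_⟩
  · rw [hP2]; exact hf0
  · rw [hP2]; exact hfc

/-- the rank form of the key lemma, for real ratios -/
theorem keyR {ι : Type} {w : ι → ℕ} {N : ℕ} {ρ e τ : ℝ} (hρ : 3 ≤ 2 * ρ) (h0 : 0 < τ)
    (h1 : τ < 1 / 2) (h : Rk w (TriR ρ e τ) N) : Rk w (WtdR ρ e) N := by
  obtain ⟨T, hTS, hTN, K, _, _, x, y, hx, hy, hE⟩ := h
  obtain ⟨s, hs⟩ : ∃ s : ℝ, s = 2 * |e| + 1 := ⟨_, rfl⟩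
  have hs0 : 0 < s := by rw [hs]; positivity
  have hes : 2 * e < s := by
    have := le_abs_self e
    rw [hs]; linarith
  rw [← hTN]
  exact Rk_of_family (U := (Pool.Agent.TH793.NS.tube K h0 h1 hs0).x)
    (V := (Pool.Agent.TH793.NS.tube K h0 h1 hs0).y)
    (fun hp hq => (Pool.Agent.TH793.NS.tube K h0 h1 hs0).point hp hq) hx hy T hE
    (S := WtdR ρ e) (fun m hm => ⟨hm.1, hm.2.1⟩) fun m hm =>
      exists_fijR (Pool.Agent.TH793.NS.tube K h0 h1 hs0) h0 (by linarith) hρ hes hs0 (hTS hm)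

section asym
variable {ι : Type} [Fintype ι] {y : ι → ℝ} {b h : ℝ}

/-- the nodal move -/
theorem Box.node (hh : 0 < h) (hbh : 3 * h ≤ 2 * b) {μ : ℝ} (hμ0 : 0 < μ)
    (hμ1 : μ < 2 * (b / h)) (hA : AW y (2 * b) μ (4 * (b / h) - μ)) : Box y b h := by
  obtain ⟨ρ, hρ⟩ : ∃ ρ : ℝ, ρ = b / h := ⟨_, rfl⟩
  have hρ3 : 3 ≤ 2 * ρ := by
    rw [hρ, ← mul_div_assoc, le_div_iff₀ hh]; exact hbh
  have hρ0 : 0 < ρ := by linarith
  unfold Box
  rw [← hρ] at hA hμ1 ⊢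
  obtain ⟨τ, hτ⟩ : ∃ τ : ℝ, τ = μ / (4 * ρ) := ⟨_, rfl⟩
  have hτμ : 4 * ρ * τ = μ := by rw [hτ]; field_simp
  have hτ0 : 0 < τ := by rw [hτ]; positivity
  have hτ1 : τ < 1 / 2 := by
    rw [hτ, div_lt_div_iff₀ (by positivity) (by norm_num)]
    linarith
  intro η hη
  obtain ⟨s1, hs1⟩ := hA η hη
  obtain ⟨s2, hs2⟩ := exists_large (η := η) (c := 4 * ρ + 4) hη
  refine ⟨max s1 s2, fun s hs w hw α => ?_⟩
  have hs1' := hs1 s ((le_max_left _ _).trans hs) w hw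
  have hs2' := hs2 s ((le_max_right _ _).trans hs)
  obtain ⟨e, he⟩ : ∃ e : ℝ, e = (b + η) * s - ρ + 1 / 2 := ⟨_, rfl⟩
  have hW : Rk w (WtdR ρ e) (∑ i, (w i + 1).choose 2) := by
    refine keyR hρ3 hτ0 hτ1 ((hs1' (-((2 * e - 1) * τ) + 1)).mono ?_)
    rintro m ⟨g1, g2, g3⟩
    refine ⟨g1, ?_, ?_⟩
    · have e3 : -((2 * (e - 2 * ρ * m.2) - 1) * τ) = -((2 * e - 1) * τ) + μ * m.2 := by
        rw [← hτμ]; ring
      rw [e3]
      linarith
    · have e3 : (2 * (e - 2 * ρ * m.2) - 1) * (1 - τ) =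
          (2 * e - 1) - (2 * e - 1) * τ - (4 * ρ - μ) * m.2 := by
        rw [← hτμ]; ring
      rw [e3]
      have e4 : (2 * b + η) * s + 1 < 2 * e - 1 := by
        have : 2 * e - 1 = (2 * b + η) * s + (η * s - 2 * ρ) := by rw [he]; ring
        rw [this]
        linarith
      linarith
  refine hW.image 1 0 0 1 ⌈α⌉ 0 (by norm_num) ?_
  rintro ⟨p, q⟩ ⟨g1, g2, g3⟩
  simp only at g1 g2 g3
  have hc1 : α ≤ ⌈α⌉ := Int.le_ceil α
  have hc2 : (⌈α⌉ : ℝ) < α + 1 := Int.ceil_lt_add_one α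
  have ha : (0 : ℝ) ≤ p := by exact_mod_cast g1
  refine ⟨?_, ?_, ?_⟩
  · simp only
    linarith
  · simp only
    push_cast
    linarith
  · simp only
    push_cast
    rw [he] at g3
    linarith

/-- **squeezing**: a flatter box of the same area -/
theorem Box.squeeze {b' h' : ℝ} (hb : 0 < b) (hh : 0 < h) (hh' : 0 < h') (hbh : 3 * h ≤ 2 * b)
    (ha : b * h = b' * h') (h2 : 2 * h' ≤ h) (hB : Box y b' h') : Box y b h := by
  have hb' : 0 < b' := by
    by_contra hcon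
    push Not at hcon
    have h3 : b' * h' ≤ 0 := mul_nonpos_of_nonpos_of_nonneg hcon hh'.le
    have h4 : 0 < b * h := by positivity
    linarith
  obtain ⟨ρ, hρ⟩ : ∃ ρ : ℝ, ρ = b / h := ⟨_, rfl⟩
  have hρ3 : 3 ≤ 2 * ρ := by
    rw [hρ, ← mul_div_assoc, le_div_iff₀ hh]; exact hbh
  have hρ0 : 0 < ρ := by linarith
  have eb : b = ρ * h := by rw [hρ]; field_simp
  -- `r = 2 b / h' = √(4 ρ ρ')`
  obtain ⟨r, hr⟩ : ∃ r, r = 2 * b / h' := ⟨_, rfl⟩
  have hrh : r * h' = 2 * b := by rw [hr]; field_simp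
  have hr4 : 4 * ρ ≤ r := by
    have h3 : 4 * ρ * h' ≤ r * h' := by
      rw [hrh, eb]
      nlinarith
    exact le_of_mul_le_mul_right h3 hh'
  have hr2 : r ^ 2 = 4 * ρ * (b' / h') := by
    have h3 : b' * h' = ρ * h * h := by rw [← ha, eb]
    have h4 : r ^ 2 * (h' * h') = 4 * ρ * (b' / h') * (h' * h') := by
      have e1 : 4 * ρ * (b' / h') * (h' * h') = 4 * ρ * (b' * h') := by field_simp
      rw [e1, h3]
      have e2 : r ^ 2 * (h' * h') = (r * h') ^ 2 := by ring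
      rw [e2, hrh, eb]
      ring
    exact mul_right_cancel₀ (by positivity) h4
  obtain ⟨v, hv⟩ : ∃ v : ℤ, v = ⌈r⌉ - 1 := ⟨_, rfl⟩
  obtain ⟨μ, hμ⟩ : ∃ μ : ℝ, μ = r - v := ⟨_, rfl⟩
  have hμ0 : 0 < μ := by
    rw [hμ, hv]
    push_cast
    linarith [Int.ceil_lt_add_one r]
  have hμ1 : μ ≤ 1 := by
    rw [hμ, hv]
    push_cast
    linarith [Int.le_ceil r]
  refine Box.node hh hbh hμ0 (by rw [← hρ]; linarith) ?_
  rw [← hρ]
  refine AW.slant hb' hh' v (by linarith) (by rw [hμ]; linarith) ?_ ?_ hB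
  · have e1 : (v : ℝ) + μ = r := by rw [hμ]; ring
    have e2 : μ + (4 * ρ - μ) = 4 * ρ := by ring
    rw [e1, e2]
    -- `2 r b = 4 ρ b'`
    have h3 : r * (2 * b) * h' = b' * (4 * ρ) * h' := by
      have e3 : r * (2 * b) * h' = (r * h') * (2 * b) := by ring
      have e4 : b' * (4 * ρ) * h' = 4 * ρ * (b' * h') := by ring
      rw [e3, e4, hrh, ← ha, eb]
      ring
    exact mul_right_cancel₀ hh'.ne' h3
  · have e1 : μ + (v : ℝ) = r := by rw [hμ]; ring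
    have e2 : μ + (4 * ρ - μ) = 4 * ρ := by ring
    rw [e1, e2, hr2]

end asym

end Pool.Agent.J6H57.WS
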