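import Pool.Agent.TH306.N4.StmtsV

/-!
Weighted versions of the interface statements of `TH306/N4`: the order of the jets depends on the
point.
-/

set_option autoImplicit false

open MvPolynomial Module Filter Topology

namespace Pool.Agent.J6H57.WS

open Pool.Agent.TH279.GR Pool.Agent.TH880.NB Pool.Agent.TH176.Nag Pool.Agent.TH306.N4

/-- `V` separates the jets of the orders `s q` at the points `w q` of the affine scheme of `J` -/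
def SepW {σ : Type} {n : ℕ} (J : Ideal (MvPolynomial σ ℂ)) (V : MvPolynomial σ ℂ → Prop)
    (s : Fin n → ℕ) (w : Fin n → σ → ℂ) : Prop :=
  ∀ q (f : MvPolynomial σ ℂ), ∃ F : MvPolynomial σ ℂ, V F ∧ F - f ∈ J ⊔ mx (w q) ^ s q ∧
    ∀ q', q' ≠ q → F ∈ J ⊔ mx (w q') ^ s q'

/-- weighted `S4` -/
def S4W : Prop :=
  ∀ (a b : ℕ) (P : Ideal (Co a b)) (α β γ : ℕ), Surf P α β γ →
    ∀ (i : Fin (a + 1)) (j : Fin (b + 1)) (FF : Type) [Field FF] [Algebra ℂ FF]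
    (π : Co a b →ₐ[ℂ] FF), Mod P i j π → (∀ m, FiniteDimensional ℂ (SecM π m)) →
    ∀ (k : ℕ) (g₁ g₂ : FF), Pencil π k g₁ g₂ →
    ∀ (n m : ℕ) (s : Fin n → ℕ), ∀ T : Finset (ℤ × ℤ), T.card = ∑ q, (s q + 1).choose 2 →
      Emp s (T : Set (ℤ × ℤ)) →
      (∀ p ∈ T, 0 ≤ p.1 ∧ 0 ≤ p.2 ∧ (k : ℤ) * p.2 ≤ m ∧
        p.1 < rk π (g₁ / g₂) (m - k * p.2.toNat)) →
      ∃ w : Fin n → Ix a b → ℂ, Tuple i j P w ∧
        SepW (chart i j P) (fun F => Sec π m (π F)) s w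

/-- weighted `S6` -/
def S6W : Prop :=
  ∀ (a b : ℕ) (P : Ideal (Co a b)) (i : Fin (a + 1)) (j : Fin (b + 1)) (FF : Type) [Field FF]
    [Algebra ℂ FF] (π : Co a b →ₐ[ℂ] FF), Mod P i j π →
    ∀ (n m : ℕ) (s : Fin n → ℕ), (∀ q, 1 ≤ s q) → ∀ w : Fin n → Ix a b → ℂ, Tuple i j P w →
      Function.Injective w →
      SepW (chart i j P) (fun F => Sec π m (π F)) s w →
      ∀ (Q : Ideal (Co a b)) (dA dB : ℝ), P ≤ Q → Curv Q dA dB → dB ≤ dA →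
        ∀ μ : Fin n → ℝ, (∀ q, IsMult i j Q (w q) (μ q)) →
          ∑ q, ((s q : ℝ) - 1) * μ q ≤ m * (dA - dB)

/-- weighted openness -/
def S9W : Prop :=
  ∀ (a b : ℕ) (P : Ideal (Co a b)), P.IsPrime → BHom P → ∀ (i : Fin (a + 1)) (j : Fin (b + 1)),
    X (Sum.inl i) ∉ P → X (Sum.inr j) ∉ P → ∀ (ι : Type) [Countable ι]
    (V : ι → Submodule ℂ (Co a b)) (n : ℕ) (s : ι → Fin n → ℕ),
    (∀ k, ∃ w : Fin n → Ix a b → ℂ, Tuple i j P w ∧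
      SepW (chart i j P) (fun F => F ∈ V k) (s k) w) →
    ∃ H : ι → MvPolynomial (Fin n × Ix a b) ℂ,
      (∀ k, ∃ w : Fin n → Ix a b → ℂ, Tuple i j P w ∧ eval (fun p => w p.1 p.2) (H k) ≠ 0) ∧
      ∀ w : Fin n → Ix a b → ℂ, ∀ k, eval (fun p => w p.1 p.2) (H k) ≠ 0 →
        SepW (chart i j P) (fun F => F ∈ V k) (s k) w

/-- a section with many zeros gives a curve, with weights -/
def UpperGW : Prop :=
  ∀ (a b : ℕ) (P : Ideal (Co a b)) (α β γ : ℕ), Surf P α β γ → Nef P →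
    ∀ (i : Fin (a + 1)) (j : Fin (b + 1)) (FF : Type) [Field FF] [Algebra ℂ FF]
    (π : Co a b →ₐ[ℂ] FF), Mod P i j π → ∀ n : ℕ, 1 ≤ n →
    ∀ w : Fin n → Ix a b → ℂ, Tuple i j P w → (∀ q, SmoothAt P i j (w q)) →
      ∀ (m p : ℕ) (s : Fin n → ℕ) (y : Fin n → ℝ), (∀ q, 1 ≤ s q) → (∀ q, 0 < y q) →
      ∑ q, s q * (s q + 1) / 2 < finrank ℂ (SecM2 π m p) →
      ∃ (Q : Ideal (Co a b)) (dA dB : ℝ) (μ : Fin n → ℝ), P ≤ Q ∧
        Curv Q dA dB ∧ (∀ q, IsMult i j Q (w q) (μ q)) ∧ 0 < ∑ q, y q * μ q ∧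
        (dA - dB) * ∑ q, y q * s q ≤
          (m * ((α : ℝ) - β) - p * ((β : ℝ) - γ)) * ∑ q, y q * μ q

end Pool.Agent.J6H57.WS
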