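import Pool.Agent.J6H57.WS.Few

/-!
The toric input: points with few different multiplicities on the right triangle of ratio `ρ`.
-/

set_option autoImplicit false

namespace Pool.Agent.J6H57.WS

open Finset Pool.Agent.TH176.Nag Pool.Agent.TH880.NB

/-- a flat box of height `h` is composed of the points -/
theorem Box.fewS {M h b : ℝ} (hM : 0 < M) {r : ℕ} {ι : Type} [Fintype ι] (y : ι → ℝ)
    (hy0 : ∀ i, 0 < y i) (hyM : ∀ i, y i ≤ M) (hcard : (univ.image y).card ≤ r + 1)
    (hb : b * h = ∑ i, y i ^ 2) (hbh : 3 * h ≤ 2 * b) (h8 : 8 * M ≤ h)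
    (h48 : 48 * (r + 1) * M ^ 2 ≤ ∑ i, y i ^ 2) : Box y b h := by
  have hh : 0 < h := by linarith
  have h1 := Box.few (h := 4 * M) hM le_rfl r ι y hy0 hyM hcard (by
    refine le_trans (le_of_eq ?_) h48
    ring)
  refine Box.squeeze (by linarith) hh (by positivity) hbh ?_ (by linarith) h1
  rw [div_mul_cancel₀ _ (by positivity)]
  exact hb

/-- **The toric input.** -/
theorem AW_few {ρ M : ℝ} (hρ : 1 ≤ ρ) (hM : 0 < M) {r : ℕ} {ι : Type} [Fintype ι] (y : ι → ℝ)
    (hy0 : ∀ i, 0 < y i) (hyM : ∀ i, y i ≤ M) (hcard : (univ.image y).card ≤ r)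
    (h48 : 48 * r * M ^ 2 ≤ ∑ i, y i ^ 2) (h64 : 64 * ρ * M ^ 2 ≤ ∑ i, y i ^ 2)
    (h256 : 2 * ρ < 3 → 256 * ρ * M ^ 2 ≤ ∑ i, y i ^ 2) :
    AW y (√(∑ i, y i ^ 2) * √ρ) 0 ρ := by
  obtain ⟨V, hV⟩ : ∃ V : ℝ, V = ∑ i, y i ^ 2 := ⟨_, rfl⟩
  rw [← hV] at h48 h64 h256 ⊢
  have hρ0 : 0 < ρ := by linarith
  have hV0 : 0 < V := lt_of_lt_of_le (by positivity) h64
  have hne : Nonempty ι := by
    by_contra hne
    rw [not_nonempty_iff] at hne
    have : V = 0 := by rw [hV]; simp
    linarith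
  obtain ⟨r', rfl⟩ : ∃ r', r = r' + 1 := by
    refine ⟨r - 1, ?_⟩
    have h1 : 0 < (univ.image y).card := card_pos.2 ((univ_nonempty).image y)
    omega
  push_cast at h48
  have hqV : 0 < √V := Real.sqrt_pos.2 hV0
  have hqρ : 0 < √ρ := Real.sqrt_pos.2 hρ0
  have hVV : √V * √V = V := Real.mul_self_sqrt hV0.le
  have hρρ : √ρ * √ρ = ρ := Real.mul_self_sqrt hρ0.le
  obtain ⟨h, hh⟩ : ∃ h : ℝ, h = √V / √ρ := ⟨_, rfl⟩
  have hh0 : 0 < h := by rw [hh]; positivity
  have hbh : √V * √ρ = ρ * h := by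
    rw [hh]
    field_simp
    rw [sq, hρρ]
  have harea : ρ * h * h = V := by
    rw [← hbh, hh]
    field_simp
    rw [sq, hVV]
  have hratio : √V * √ρ / h = ρ := by
    rw [hbh]; field_simp
  have key : Box y (√V * √ρ) h := by
    rw [hbh]
    rcases lt_or_ge (2 * ρ) 3 with h3 | h3
    · have h1 : 16 * M ≤ h := by
        have h2 : (16 * M) ^ 2 ≤ h ^ 2 := by
          have h4 : ρ * (16 * M) ^ 2 ≤ ρ * h ^ 2 := by
            have := h256 h3
            rw [← harea] at this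
            nlinarith
          exact le_of_mul_le_mul_left h4 hρ0
        exact (pow_le_pow_iff_left₀ (by positivity) hh0.le (by norm_num)).1 h2
      refine Box.stretch (by positivity) hh0 (by nlinarith) ?_
      refine Box.fewS hM (r := r') y hy0 hyM hcard ?_ (by nlinarith) (by linarith) ?_
      · rw [← hV, ← harea]; ring
      · rw [← hV]; exact h48
    · have h1 : 8 * M ≤ h := by
        have h2 : (8 * M) ^ 2 ≤ h ^ 2 := by
          have h4 : ρ * (8 * M) ^ 2 ≤ ρ * h ^ 2 := by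
            rw [← harea] at h64
            nlinarith
          exact le_of_mul_le_mul_left h4 hρ0
        exact (pow_le_pow_iff_left₀ (by positivity) hh0.le (by norm_num)).1 h2
      refine Box.fewS hM (r := r') y hy0 hyM hcard ?_ (by nlinarith) h1 ?_
      · rw [← hV, ← harea]
      · rw [← hV]; exact h48
  unfold Box at key
  rw [hratio] at key
  exact key

end Pool.Agent.J6H57.WS
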